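import Mathlib

/-!
# Positive operators with bounded trace on a Hilbert space
-/

set_option autoImplicit false

open Filter Topology Finset ComplexConjugate
open scoped InnerProductSpace

namespace Pool.Agent.R237.NH

universe u

/-- Every positive semidefinite form is the pull back of the inner product of a Hilbert space. -/
theorem exists_hilbert {Y : Type u} [AddCommGroup Y] [Module ℂ Y]
    (c : PreInnerProductSpace.Core ℂ Y) :
    ∃ (H : Type u) (_ : NormedAddCommGroup H) (_ : InnerProductSpace ℂ H) (_ : CompleteSpace H)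
      (J : Y →ₗ[ℂ] H), ∀ a b, ⟪J a, J b⟫_ℂ = c.inner a b := by
  letI i1 : SeminormedAddCommGroup Y := InnerProductSpace.Core.toSeminormedAddCommGroup (c := c)
  letI i2 : InnerProductSpace ℂ Y := InnerProductSpace.ofCore c
  refine ⟨UniformSpace.Completion Y, inferInstance, inferInstance, inferInstance,
    { toFun := fun y => (y : UniformSpace.Completion Y)
      map_add' := fun a b => UniformSpace.Completion.coe_add a b
      map_smul' := fun t a => UniformSpace.Completion.coe_smul t a }, fun a b => ?_⟩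
  exact UniformSpace.Completion.inner_coe a b

variable {H : Type u} [NormedAddCommGroup H] [InnerProductSpace ℂ H] [CompleteSpace H]

theorem cs_pos (A : H →L[ℂ] H) (hs : ∀ x y, ⟪A x, y⟫_ℂ = ⟪x, A y⟫_ℂ)
    (hp : ∀ x, 0 ≤ (⟪x, A x⟫_ℂ).re) (x y : H) :
    ‖⟪x, A y⟫_ℂ‖ ^ 2 ≤ (⟪x, A x⟫_ℂ).re * (⟪y, A y⟫_ℂ).re := by
  let c : PreInnerProductSpace.Core ℂ H :=
    { inner := fun a b => ⟪a, A b⟫_ℂ
      conj_inner_symm := fun a b => by rw [inner_conj_symm, hs]
      re_inner_nonneg := fun a => hp a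
      add_left := fun a b d => inner_add_left _ _ _
      smul_left := fun a b r => inner_smul_left _ _ _ }
  have h := @InnerProductSpace.Core.inner_mul_inner_self_le ℂ H _ _ _ c x y
  have h1 : ‖⟪x, A y⟫_ℂ‖ * ‖⟪y, A x⟫_ℂ‖ ≤ (⟪x, A x⟫_ℂ).re * (⟪y, A y⟫_ℂ).re := h
  have h2 : ‖⟪y, A x⟫_ℂ‖ = ‖⟪x, A y⟫_ℂ‖ := by
    rw [← hs, ← inner_conj_symm, RCLike.norm_conj]
  rw [h2] at h1
  rw [sq]
  exact h1

/-- A finite dimensional subspace outside of which the form is small. -/
theorem exists_fd (A : H →L[ℂ] H) (C : ℝ)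
    (ht : ∀ s : Finset H, Orthonormal ℂ (fun e : (s : Set H) => (e : H)) →
      ∑ e ∈ s, (⟪e, A e⟫_ℂ).re ≤ C) (ε : ℝ) (hε : 0 < ε) :
    ∃ F : Submodule ℂ H, FiniteDimensional ℂ F ∧ ∀ x ∈ Fᗮ, (⟪x, A x⟫_ℂ).re ≤ ε * ‖x‖ ^ 2 := by
  by_contra hcon
  push Not at hcon
  have key : ∀ N : ℕ, ∃ s : Finset H, s.card = N ∧
      Orthonormal ℂ (fun e : (s : Set H) => (e : H)) ∧ ∀ e ∈ s, ε ≤ (⟪e, A e⟫_ℂ).re := by
    intro N
    induction N with
    | zero => exact ⟨∅, rfl, ⟨fun i => absurd i.2 (by simp), fun i => absurd i.2 (by simp)⟩,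
        fun e he => absurd he (by simp)⟩
    | succ N ih =>
      obtain ⟨s, hs, ho, hs'⟩ := ih
      obtain ⟨x, hx, hx2⟩ := hcon (Submodule.span ℂ (s : Set H))
        (FiniteDimensional.span_finset ℂ s)
      have hx0 : x ≠ 0 := by
        rintro rfl
        simp at hx2
      have hn : 0 < ‖x‖ := norm_pos_iff.2 hx0
      set e : H := ((‖x‖ : ℂ))⁻¹ • x with he
      have he1 : ‖e‖ = 1 := by
        rw [he, norm_smul, norm_inv, Complex.norm_real, norm_norm, inv_mul_cancel₀ hn.ne']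
      have hes : ∀ w ∈ s, ⟪w, e⟫_ℂ = 0 := by
        intro w hw
        rw [he, inner_smul_right, (Submodule.mem_orthogonal _ _).1 hx w
          (Submodule.subset_span hw), mul_zero]
      have hnot : e ∉ s := by
        intro hmem
        have := hes e hmem
        rw [inner_self_eq_zero] at this
        rw [this, norm_zero] at he1
        exact zero_ne_one he1
      classical
      refine ⟨insert e s, by rw [card_insert_of_notMem hnot, hs], ?_, ?_⟩
      · rw [orthonormal_subtype_iff_ite] at ho ⊢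
        intro v hv w hw
        rw [Finset.mem_coe, Finset.mem_insert] at hv hw
        rcases hv with rfl | hv <;> rcases hw with rfl | hw
        · rw [if_pos rfl, inner_self_eq_norm_sq_to_K, he1]; simp
        · rw [if_neg (by rintro rfl; exact hnot hw), ← inner_conj_symm, hes w hw, map_zero]
        · rw [if_neg (by rintro rfl; exact hnot hv), hes v hv]
        · exact ho v hv w hw
      · intro w hw
        rw [Finset.mem_insert] at hw
        rcases hw with rfl | hw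
        · have h3 : (⟪e, A e⟫_ℂ).re = (‖x‖ ^ 2)⁻¹ * (⟪x, A x⟫_ℂ).re := by
            rw [he, map_smul, inner_smul_left, inner_smul_right, ← mul_assoc]
            have : (starRingEnd ℂ) ((‖x‖ : ℂ))⁻¹ * ((‖x‖ : ℂ))⁻¹ = (((‖x‖ ^ 2)⁻¹ : ℝ) : ℂ) := by
              rw [map_inv₀, Complex.conj_ofReal]
              push_cast
              rw [sq, mul_inv]
            rw [this, Complex.re_ofReal_mul]
          have h4 : ε ≤ (⟪e, A e⟫_ℂ).re := by
            rw [h3, inv_mul_eq_div, le_div_iff₀ (by positivity)]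
            exact hx2.le
          exact h4
        · exact hs' w hw
  obtain ⟨N, hN⟩ := exists_nat_gt (C / ε)
  obtain ⟨s, hs, ho, hs'⟩ := key N
  have h5 := ht s ho
  have h6 : (N : ℝ) * ε ≤ ∑ e ∈ s, (⟪e, A e⟫_ℂ).re := by
    refine le_trans ?_ (sum_le_sum fun e he => hs' e he)
    simp [hs]
  rw [div_lt_iff₀ hε] at hN
  linarith

/-- A positive operator of bounded trace is compact. -/
theorem compact_of_trace (A : H →L[ℂ] H) (hs : ∀ x y, ⟪A x, y⟫_ℂ = ⟪x, A y⟫_ℂ)
    (hp : ∀ x, 0 ≤ (⟪x, A x⟫_ℂ).re) (C : ℝ)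
    (ht : ∀ s : Finset H, Orthonormal ℂ (fun e : (s : Set H) => (e : H)) →
      ∑ e ∈ s, (⟪e, A e⟫_ℂ).re ≤ C) : IsCompactOperator A := by
  have hcl : IsClosed {f : H →L[ℂ] H | IsCompactOperator f} := isClosed_setOfPred_isCompactOperator
  have hmem : A ∈ closure {f : H →L[ℂ] H | IsCompactOperator f} := by
    rw [Metric.mem_closure_iff]
    intro δ hδ
    set ε : ℝ := (δ / 2) ^ 2 / (‖A‖ + 1) with hε
    have hεp : 0 < ε := by positivity
    obtain ⟨F, hF, hF2⟩ := exists_fd A C ht ε hεp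
    haveI := hF
    refine ⟨A ∘L (F.subtypeL ∘L F.orthogonalProjectionOnto), ?_, ?_⟩
    · haveI : ProperSpace F := FiniteDimensional.proper ℂ F
      have h1 : IsCompactOperator (F.orthogonalProjectionOnto : H →L[ℂ] F) :=
        isCompactOperator_of_locallyCompactSpace_dom _
      exact (h1.clm_comp F.subtypeL).clm_comp A
    · rw [dist_eq_norm]
      refine lt_of_le_of_lt (b := δ / 2) ?_ (by linarith)
      refine ContinuousLinearMap.opNorm_le_bound _ (by positivity) fun x => ?_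
      set y : H := x - (F.orthogonalProjectionOnto x : H) with hy
      have hyF : y ∈ Fᗮ := F.sub_starProjection_mem_orthogonal x
      have hyn : ‖y‖ ≤ ‖x‖ := by
        have h3 : ‖x‖ ^ 2 = ‖(F.orthogonalProjectionOnto x : H)‖ ^ 2 + ‖y‖ ^ 2 := by
          have h4 : x = (F.orthogonalProjectionOnto x : H) + y := by rw [hy]; abel
          have h5 : ⟪(F.orthogonalProjectionOnto x : H), y⟫_ℂ = 0 :=
            (Submodule.mem_orthogonal _ _).1 hyF _ (F.orthogonalProjectionOnto x).2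
          have h6 := norm_add_sq_eq_norm_sq_add_norm_sq_of_inner_eq_zero _ _ h5
          rw [← h4] at h6
          nlinarith [h6]
        nlinarith [norm_nonneg x, norm_nonneg y, sq_nonneg ‖(F.orthogonalProjectionOnto x : H)‖]
      have h7 : (A - A ∘L (F.subtypeL ∘L F.orthogonalProjectionOnto)) x = A y := by
        simp [hy]
      rw [h7]
      have h8 := cs_pos A hs hp (A y) y
      have h9 : ‖⟪A y, A y⟫_ℂ‖ = ‖A y‖ ^ 2 := by
        rw [inner_self_eq_norm_sq_to_K]
        simp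
      rw [h9] at h8
      have h10 : (⟪A y, A (A y)⟫_ℂ).re ≤ ‖A‖ * ‖A y‖ ^ 2 := by
        refine (Complex.re_le_norm _).trans ((norm_inner_le_norm _ _).trans ?_)
        calc ‖A y‖ * ‖A (A y)‖ ≤ ‖A y‖ * (‖A‖ * ‖A y‖) := by gcongr; exact A.le_opNorm _
          _ = ‖A‖ * ‖A y‖ ^ 2 := by ring
      have h11 := hF2 y hyF
      have h12 : (‖A y‖ ^ 2) ^ 2 ≤ (‖A‖ * ‖A y‖ ^ 2) * (ε * ‖x‖ ^ 2) := by
        refine h8.trans (mul_le_mul h10 (h11.trans ?_) (hp y) (by positivity))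
        gcongr
      by_cases h0 : ‖A y‖ = 0
      · rw [h0]; positivity
      have h13 : ‖A y‖ ^ 2 ≤ ‖A‖ * (ε * ‖x‖ ^ 2) := by
        have hpos : 0 < ‖A y‖ ^ 2 := by positivity
        have : ‖A y‖ ^ 2 * ‖A y‖ ^ 2 ≤ ‖A y‖ ^ 2 * (‖A‖ * (ε * ‖x‖ ^ 2)) := by nlinarith [h12]
        exact le_of_mul_le_mul_left this hpos
      have h14 : ‖A‖ * ε ≤ (δ / 2) ^ 2 := by
        rw [hε, mul_div_assoc']
        rw [div_le_iff₀ (by positivity)]
        nlinarith [norm_nonneg A, sq_nonneg (δ / 2)]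
      have h15 : ‖A y‖ ^ 2 ≤ (δ / 2 * ‖x‖) ^ 2 := by
        calc ‖A y‖ ^ 2 ≤ ‖A‖ * (ε * ‖x‖ ^ 2) := h13
          _ = (‖A‖ * ε) * ‖x‖ ^ 2 := by ring
          _ ≤ (δ / 2) ^ 2 * ‖x‖ ^ 2 := by gcongr
          _ = (δ / 2 * ‖x‖) ^ 2 := by ring
      exact (sq_le_sq₀ (norm_nonneg _) (by positivity)).1 h15
  rw [hcl.closure_eq] at hmem
  exact hmem

/-- Spectral theorem: a nonzero positive operator of bounded trace has a nonzero eigenvalue with
finite dimensional eigenspace. -/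
theorem exists_eigenvalue (A : H →L[ℂ] H) (hs : ∀ x y, ⟪A x, y⟫_ℂ = ⟪x, A y⟫_ℂ)
    (hp : ∀ x, 0 ≤ (⟪x, A x⟫_ℂ).re) (C : ℝ)
    (ht : ∀ s : Finset H, Orthonormal ℂ (fun e : (s : Set H) => (e : H)) →
      ∑ e ∈ s, (⟪e, A e⟫_ℂ).re ≤ C) (hA : A ≠ 0) :
    ∃ l : ℂ, l ≠ 0 ∧ (∃ x, x ≠ 0 ∧ A x = l • x) ∧
      FiniteDimensional ℂ (Module.End.eigenspace A.toLinearMap l) := by
  have hc := compact_of_trace A hs hp C ht
  have h1 : ¬ ∀ μ, Module.End.HasEigenvalue (A : Module.End ℂ H) μ → μ = 0 := by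
    rw [ContinuousLinearMap.eq_zero_of_forall_hasEigenvalue_eq_zero hc (fun x y => hs x y)]
    exact hA
  push Not at h1
  obtain ⟨l, hl, hl0⟩ := h1
  obtain ⟨x, hx⟩ := hl.exists_hasEigenvector
  exact ⟨l, hl0, ⟨x, hx.2, hx.apply_eq_smul⟩,
    ContinuousLinearMap.finite_dimensional_eigenspace hc l hl0⟩

end Pool.Agent.R237.NH
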