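import Pool.Agent.R237.NH.Mean
import Pool.Agent.R237.NH.Hilb

/-!
# Power bounded operators on reflexive spaces: orbits staying away from zero give eigenvectors
-/

set_option autoImplicit false

open Filter Topology Finset ComplexConjugate
open scoped InnerProductSpace

namespace Pool.Agent.R237.NH

universe u

/-- Let `V` be a power bounded operator on a reflexive space. If some scalar orbit `g (V ^ n y)`
is bounded away from zero, then `V` has an eigenvector. -/
theorem exists_eigenvector {Y : Type u} [NormedAddCommGroup Y] [NormedSpace ℂ Y]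
    (hr : Function.Surjective (NormedSpace.inclusionInDoubleDual ℂ Y))
    (V : Y →L[ℂ] Y) (C : ℝ) (hV : ∀ n : ℕ, ‖V ^ n‖ ≤ C) (y₀ : Y) (g₀ : StrongDual ℂ Y)
    (c : ℝ) (hc : 0 < c) (hlow : ∀ n : ℕ, c ≤ ‖g₀ ((V ^ n) y₀)‖) :
    ∃ (μ : ℂ) (v : Y), v ≠ 0 ∧ V v = μ • v := by
  have hC : 0 ≤ C := (norm_nonneg _).trans (hV 0)
  -- the scalar orbits
  have hg : ∀ (a : Y) (n : ℕ), ‖g₀ ((V ^ n) a)‖ ≤ ‖g₀‖ * C * ‖a‖ := by
    intro a n
    calc ‖g₀ ((V ^ n) a)‖ ≤ ‖g₀‖ * ‖(V ^ n) a‖ := g₀.le_opNorm _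
      _ ≤ ‖g₀‖ * (‖V ^ n‖ * ‖a‖) := by gcongr; exact (V ^ n).le_opNorm _
      _ ≤ ‖g₀‖ * (C * ‖a‖) := by gcongr; exact hV n
      _ = _ := by ring
  have hgg : ∀ (a b : Y) (n : ℕ), ‖conj (g₀ ((V ^ n) a)) * g₀ ((V ^ n) b)‖ ≤
      (‖g₀‖ * C * ‖a‖) * (‖g₀‖ * C * ‖b‖) := by
    intro a b n
    rw [norm_mul, RCLike.norm_conj]
    exact mul_le_mul (hg a n) (hg b n) (norm_nonneg _) (by positivity)
  set β : Y → Y → ℂ := fun a b => mean (fun n => conj (g₀ ((V ^ n) a)) * g₀ ((V ^ n) b)) with hβ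
  have hβ1 : ∀ a b, conj (β b a) = β a b := by
    intro a b
    simp only [hβ]
    rw [← mean_conj _ _ (hgg b a)]
    congr 1
    funext n
    rw [map_mul, Complex.conj_conj, mul_comm]
  have hβ2 : ∀ a, 0 ≤ (β a a).re := by
    intro a
    refine mean_re_ge _ _ (hgg a a) 0 fun n => ?_
    rw [← Complex.normSq_eq_conj_mul_self, Complex.ofReal_re]
    exact Complex.normSq_nonneg _
  let core : PreInnerProductSpace.Core ℂ Y :=
    { inner := β
      conj_inner_symm := fun a b => hβ1 a b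
      re_inner_nonneg := fun a => hβ2 a
      add_left := fun a b d => by
        change β (a + b) d = β a d + β b d
        simp only [hβ]
        rw [← mean_add _ _ _ _ (hgg a d) (hgg b d)]
        congr 1
        funext n
        rw [map_add, map_add, map_add]
        ring
      smul_left := fun a b r => by
        change β (r • a) b = conj r * β a b
        simp only [hβ]
        rw [← mean_const_mul _ _ _ (hgg a b)]
        congr 1
        funext n
        rw [map_smul, map_smul, smul_eq_mul, map_mul]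
        ring }
  obtain ⟨H, iH1, iH2, iH3, J₀, hJ₀⟩ := exists_hilbert core
  have hJ : ∀ a b, ⟪J₀ a, J₀ b⟫_ℂ = β a b := hJ₀
  have hJn : ∀ a, ‖J₀ a‖ ≤ (‖g₀‖ * C) * ‖a‖ := by
    intro a
    have h1 : ‖J₀ a‖ ^ 2 = (β a a).re := by
      rw [← hJ, inner_self_eq_norm_sq_to_K]
      simp [← Complex.ofReal_pow]
    have h2 : (β a a).re ≤ (‖g₀‖ * C * ‖a‖) * (‖g₀‖ * C * ‖a‖) :=
      (Complex.re_le_norm _).trans (mean_norm_le _ _ (hgg a a))
    have h3 : ‖J₀ a‖ ^ 2 ≤ (‖g₀‖ * C * ‖a‖) ^ 2 := by rw [h1, sq]; exact h2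
    exact (sq_le_sq₀ (norm_nonneg _) (by positivity)).1 h3
  let J : Y →L[ℂ] H := J₀.mkContinuous (‖g₀‖ * C) hJn
  have hJJ : ∀ a b, ⟪J a, J b⟫_ℂ = β a b := hJ₀
  have hVpow : ∀ (n : ℕ) (a : Y), (V ^ n) (V a) = (V ^ (n + 1)) a := by
    intro n a; rw [pow_succ]; rfl
  have hVpow' : ∀ (n : ℕ) (a : Y), V ((V ^ n) a) = (V ^ (n + 1)) a := by
    intro n a; rw [pow_succ']; rfl
  have hiso : ∀ a b, ⟪J (V a), J (V b)⟫_ℂ = ⟪J a, J b⟫_ℂ := by
    intro a b
    rw [hJJ, hJJ]
    simp only [hβ]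
    rw [← mean_shift _ _ (hgg a b)]
    congr 1
  -- the orbit
  set v : ℕ → Y := fun n => (V ^ n) y₀ with hv
  set D : ℝ := C * ‖y₀‖ with hD
  have hvn : ∀ n, ‖v n‖ ≤ D := fun n => ((V ^ n).le_opNorm _).trans (by rw [hD]; gcongr; exact hV n)
  have hD0 : 0 ≤ D := by rw [hD]; positivity
  set E : ℝ := ‖g₀‖ * C * D with hE
  have hE0 : 0 ≤ E := by rw [hE]; positivity
  have hJv : ∀ n, ‖J (v n)‖ ≤ E := by
    intro n
    refine (hJn (v n)).trans ?_
    rw [hE]
    gcongr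
    exact hvn n
  have hvs : ∀ n, V (v n) = v (n + 1) := fun n => hVpow' n y₀
  have hb1 : ∀ (x : H) (g : StrongDual ℂ Y) (n : ℕ),
      ‖⟪J (v n), x⟫_ℂ * g (v n)‖ ≤ (E * D) * ‖x‖ * ‖g‖ := by
    intro x g n
    rw [norm_mul]
    calc ‖⟪J (v n), x⟫_ℂ‖ * ‖g (v n)‖ ≤ (‖J (v n)‖ * ‖x‖) * (‖g‖ * ‖v n‖) := by
          gcongr
          · exact norm_inner_le_norm _ _
          · exact g.le_opNorm _
      _ ≤ (E * ‖x‖) * (‖g‖ * D) := by gcongr; exacts [hJv n, hvn n]
      _ = _ := by ring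
  let M : H →L[ℂ] StrongDual ℂ (StrongDual ℂ Y) :=
    (LinearMap.mk₂ ℂ (fun (x : H) (g : StrongDual ℂ Y) => mean (fun n => ⟪J (v n), x⟫_ℂ * g (v n)))
      (fun x x' g => by
        rw [← mean_add _ _ _ _ (hb1 x g) (hb1 x' g)]
        congr 1; funext n; rw [inner_add_right]; ring)
      (fun r x g => by
        rw [smul_eq_mul, ← mean_const_mul _ _ _ (hb1 x g)]
        congr 1; funext n; rw [inner_smul_right]; ring)
      (fun x g g' => by
        rw [← mean_add _ _ _ _ (hb1 x g) (hb1 x g')]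
        congr 1; funext n; rw [add_apply]; ring)
      (fun r x g => by
        rw [smul_eq_mul, ← mean_const_mul _ _ _ (hb1 x g)]
        congr 1; funext n; rw [smul_apply, smul_eq_mul]; ring)).mkContinuous₂
      (E * D) (fun x g => mean_norm_le _ _ (hb1 x g))
  have hM : ∀ x g, M x g = mean (fun n => ⟪J (v n), x⟫_ℂ * g (v n)) := fun x g => rfl
  let e : Y ≃ₗᵢ[ℂ] StrongDual ℂ (StrongDual ℂ Y) :=
    LinearIsometryEquiv.ofSurjective (NormedSpace.inclusionInDoubleDualLi ℂ) hr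
  let B' : H →L[ℂ] Y := (e.symm.toContinuousLinearEquiv : StrongDual ℂ (StrongDual ℂ Y) →L[ℂ] Y) ∘L M
  have hB' : ∀ (x : H) (g : StrongDual ℂ Y),
      g (B' x) = mean (fun n => ⟪J (v n), x⟫_ℂ * g (v n)) := by
    intro x g
    rw [← hM]
    have h1 : e (B' x) = M x := by
      change e (e.symm (M x)) = M x
      exact e.apply_symm_apply _
    have h2 : e (B' x) g = g (B' x) := rfl
    rw [← h2, h1]
  let A : H →L[ℂ] H := J ∘L B'
  have hA : ∀ k x : H, ⟪k, A x⟫_ℂ = mean (fun n => ⟪J (v n), x⟫_ℂ * ⟪k, J (v n)⟫_ℂ) := by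
    intro k x
    exact hB' x ((innerSL ℂ k) ∘L J)
  have hb2 : ∀ (k x : H) (n : ℕ), ‖⟪J (v n), x⟫_ℂ * ⟪k, J (v n)⟫_ℂ‖ ≤ (E * ‖x‖) * (‖k‖ * E) := by
    intro k x n
    rw [norm_mul]
    gcongr
    · exact (norm_inner_le_norm _ _).trans (by gcongr; exact hJv n)
    · exact (norm_inner_le_norm _ _).trans (by gcongr; exact hJv n)
  have hsymm : ∀ x y, ⟪A x, y⟫_ℂ = ⟪x, A y⟫_ℂ := by
    intro x y
    rw [← inner_conj_symm, hA, hA, ← mean_conj _ _ (hb2 y x)]
    congr 1
    funext n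
    rw [map_mul, inner_conj_symm, inner_conj_symm, mul_comm]
  have hsq : ∀ (x : H) (n : ℕ), ⟪J (v n), x⟫_ℂ * ⟪x, J (v n)⟫_ℂ = ((‖⟪J (v n), x⟫_ℂ‖ ^ 2 : ℝ) : ℂ) := by
    intro x n
    rw [← inner_conj_symm x (J (v n)), Complex.mul_conj, Complex.normSq_eq_norm_sq]
  have hpos : ∀ x, 0 ≤ (⟪x, A x⟫_ℂ).re := by
    intro x
    rw [hA]
    refine mean_re_ge _ _ (hb2 x x) 0 fun n => ?_
    rw [hsq, Complex.ofReal_re]
    positivity
  have hsum : ∀ s : Finset H, ∑ e ∈ s, ⟪e, A e⟫_ℂ =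
      mean (fun n => ((∑ e ∈ s, ‖⟪J (v n), e⟫_ℂ‖ ^ 2 : ℝ) : ℂ)) ∧
      ∃ K : ℝ, ∀ n, ‖((∑ e ∈ s, ‖⟪J (v n), e⟫_ℂ‖ ^ 2 : ℝ) : ℂ)‖ ≤ K := by
    intro s
    classical
    induction s using Finset.induction_on with
    | empty => exact ⟨by simp [mean_const], 0, fun n => by simp⟩
    | insert a s ha ih =>
      obtain ⟨ih1, K, hK⟩ := ih
      refine ⟨?_, (E * ‖a‖) * (‖a‖ * E) + K, fun n => ?_⟩
      · rw [sum_insert ha, ih1, hA, ← mean_add _ _ _ _ (hb2 a a) hK]
        congr 1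
        funext n
        rw [hsq, sum_insert ha]
        push_cast
        ring
      · rw [sum_insert ha, Complex.ofReal_add]
        refine (norm_add_le _ _).trans (add_le_add ?_ (hK n))
        rw [← hsq]
        exact hb2 a a n
  have htr : ∀ s : Finset H, Orthonormal ℂ (fun e : (s : Set H) => (e : H)) →
      ∑ e ∈ s, (⟪e, A e⟫_ℂ).re ≤ E ^ 2 := by
    intro s hs
    rw [← Complex.re_sum, (hsum s).1]
    refine (Complex.re_le_norm _).trans (mean_norm_le _ _ fun n => ?_)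
    rw [Complex.norm_real, Real.norm_of_nonneg (by positivity)]
    have h1 := hs.sum_inner_products_le (J (v n)) (s := Finset.univ)
    have h2 : ∑ e ∈ s, ‖⟪J (v n), e⟫_ℂ‖ ^ 2 =
        ∑ e : (s : Set H), ‖⟪((e : (s : Set H)) : H), J (v n)⟫_ℂ‖ ^ 2 := by
      rw [← Finset.sum_coe_sort s]
      refine Finset.sum_congr rfl fun e _ => ?_
      rw [← inner_conj_symm, RCLike.norm_conj]
    rw [h2]
    refine h1.trans ?_
    gcongr
    exact hJv n
  by_cases hA0 : A = 0
  · -- impossible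
    exfalso
    have hz : ∀ s : Finset Y, mean (fun n => ((∑ a ∈ s, ‖⟪J (v n), J a⟫_ℂ‖ ^ 2 : ℝ) : ℂ)) = 0 ∧
        ∃ K : ℝ, ∀ n, ‖((∑ a ∈ s, ‖⟪J (v n), J a⟫_ℂ‖ ^ 2 : ℝ) : ℂ)‖ ≤ K := by
      intro s
      classical
      induction s using Finset.induction_on with
      | empty => exact ⟨by simp [mean_const], 0, fun n => by simp⟩
      | insert a s ha ih =>
        obtain ⟨ih1, K, hK⟩ := ih
        refine ⟨?_, (E * ‖J a‖) * (‖J a‖ * E) + K, fun n => ?_⟩
        · have h1 : mean (fun n => ⟪J (v n), J a⟫_ℂ * ⟪J a, J (v n)⟫_ℂ) = 0 := by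
            rw [← hA, hA0]; simp
          rw [← add_zero (0 : ℂ), ← ih1]
          nth_rewrite 1 [ih1]
          rw [← h1, ← mean_add _ _ _ _ (hb2 (J a) (J a)) hK]
          congr 1
          funext n
          rw [hsq, sum_insert ha]
          push_cast
          ring
        · rw [sum_insert ha, Complex.ofReal_add]
          refine (norm_add_le _ _).trans (add_le_add ?_ (hK n))
          rw [← hsq]
          exact hb2 (J a) (J a) n
    have hex : ∀ i : Finset Y × ℕ, ∃ n : ℕ,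
        ∑ a ∈ i.1, ‖⟪J (v n), J a⟫_ℂ‖ ^ 2 < 1 / ((i.2 : ℝ) + 1) := by
      intro i
      by_contra hcon
      push Not at hcon
      obtain ⟨h1, K, hK⟩ := hz i.1
      have h2 := mean_re_ge _ K hK (1 / ((i.2 : ℝ) + 1)) (fun n => by
        rw [Complex.ofReal_re]; exact hcon n)
      rw [h1, Complex.zero_re] at h2
      have h3 : 0 < 1 / ((i.2 : ℝ) + 1) := by positivity
      linarith
    choose k hk using hex
    classical
    let U : Ultrafilter (Finset Y × ℕ) := Ultrafilter.of atTop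
    have hU : (U : Filter (Finset Y × ℕ)) ≤ atTop := Ultrafilter.of_le _
    obtain ⟨z, -, hzw⟩ := exists_wlim hr U (fun i => v (k i)) D (fun i => hvn _)
    have hlim0 : ∀ a : Y, Tendsto (fun i => ⟪J a, J (v (k i))⟫_ℂ) atTop (𝓝 0) := by
      intro a
      rw [Metric.tendsto_atTop]
      intro ε hε
      obtain ⟨N, hN⟩ := exists_nat_gt (1 / ε ^ 2)
      refine ⟨({a}, N), fun i hi => ?_⟩
      have h1 : a ∈ i.1 := hi.1 (Finset.mem_singleton_self a)
      have h2 : N ≤ i.2 := hi.2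
      have h3 : ‖⟪J (v (k i)), J a⟫_ℂ‖ ^ 2 < 1 / ((i.2 : ℝ) + 1) :=
        lt_of_le_of_lt (Finset.single_le_sum (f := fun a => ‖⟪J (v (k i)), J a⟫_ℂ‖ ^ 2)
          (fun _ _ => sq_nonneg _) h1) (hk i)
      have h4 : 1 / ((i.2 : ℝ) + 1) < ε ^ 2 := by
        have h5 : (N : ℝ) ≤ i.2 := by exact_mod_cast h2
        rw [div_lt_iff₀ (by positivity)]
        rw [div_lt_iff₀ (by positivity)] at hN
        nlinarith [sq_nonneg ε]
      rw [dist_zero_right, ← inner_conj_symm, RCLike.norm_conj]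
      exact lt_of_pow_lt_pow_left₀ 2 hε.le (h3.trans h4)
    have hzz : ∀ a : Y, ⟪J a, J z⟫_ℂ = 0 := by
      intro a
      exact tendsto_nhds_unique (hzw ((innerSL ℂ (J a)) ∘L J)) ((hlim0 a).mono_left hU)
    have h6 : β z z = 0 := by rw [← hJJ]; exact hzz z
    have h7 : c ^ 2 ≤ (β z z).re := by
      refine mean_re_ge _ _ (hgg z z) _ fun n => ?_
      rw [← Complex.normSq_eq_conj_mul_self, Complex.ofReal_re, Complex.normSq_eq_norm_sq]
      have h8 : c ≤ ‖g₀ ((V ^ n) z)‖ := by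
        have h9 := hzw (g₀ ∘L (V ^ n))
        refine ge_of_tendsto h9.norm (Eventually.of_forall fun i => ?_)
        have h10 : (g₀ ∘L (V ^ n)) (v (k i)) = g₀ ((V ^ (n + k i)) y₀) := by
          rw [pow_add]; rfl
        rw [h10]
        exact hlow _
      gcongr
    rw [h6, Complex.zero_re] at h7
    have : 0 < c ^ 2 := by positivity
    linarith
  · obtain ⟨l, hl, ⟨x, hx0, hx⟩, hfd⟩ := exists_eigenvalue A hsymm hpos (E ^ 2) htr hA0
    let B : Y →L[ℂ] Y := B' ∘L J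
    have hBV : ∀ y, B (V y) = V (B y) := by
      intro y
      have h1 : ∀ g : StrongDual ℂ Y, g (B (V y)) = g (V (B y)) := by
        intro g
        have h2 : g (B (V y)) = mean (fun n => ⟪J (v n), J (V y)⟫_ℂ * g (v n)) := hB' _ _
        have h3 : g (V (B y)) = mean (fun n => ⟪J (v n), J y⟫_ℂ * g (V (v n))) :=
          hB' (J y) (g ∘L V)
        rw [h2, h3, ← mean_shift _ _ (hb1 (J (V y)) g)]
        congr 1
        funext n
        rw [← hvs, hiso]
      by_contra hne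
      obtain ⟨g, hg1, hg2⟩ := exists_dual_vector ℂ (B (V y) - V (B y)) (norm_ne_zero_iff.2 (sub_ne_zero.2 hne))
      rw [map_sub, h1 g, sub_self] at hg2
      have h4 : ((‖B (V y) - V (B y)‖ : ℝ) : ℂ) ≠ 0 := by
        exact_mod_cast (norm_pos_iff.2 (sub_ne_zero.2 hne)).ne'
      exact h4 hg2.symm
    let W : Submodule ℂ Y := Module.End.eigenspace B.toLinearMap l
    have hWmem : ∀ y, y ∈ W ↔ B y = l • y := fun y => Module.End.mem_eigenspace_iff
    have hJW : ∀ y ∈ W, J y ∈ Module.End.eigenspace A.toLinearMap l := by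
      intro y hy
      rw [Module.End.mem_eigenspace_iff]
      change J (B' (J y)) = l • J y
      rw [← map_smul, ← (hWmem y).1 hy]
      rfl
    let JW : W →ₗ[ℂ] Module.End.eigenspace A.toLinearMap l :=
      (J.toLinearMap.restrict (p := W) (q := Module.End.eigenspace A.toLinearMap l) hJW)
    have hinj : Function.Injective JW := by
      rw [← LinearMap.ker_eq_bot, LinearMap.ker_eq_bot']
      intro w hw
      have h1 : J w = 0 := by
        have := congrArg Subtype.val hw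
        exact this
      have h2 : B w = l • (w : Y) := (hWmem w).1 w.2
      have h3 : B w = 0 := by
        change B' (J w) = 0
        rw [h1, map_zero]
      rw [h3] at h2
      have h4 : (w : Y) = 0 := (smul_eq_zero.1 h2.symm).resolve_left hl
      exact Subtype.ext h4
    haveI := hfd
    haveI hWfd : FiniteDimensional ℂ W := FiniteDimensional.of_injective JW hinj
    have hy1 : B' x ∈ W := by
      rw [hWmem]
      change B' (J (B' x)) = l • B' x
      have : J (B' x) = l • x := hx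
      rw [this, map_smul]
    have hy0 : B' x ≠ 0 := by
      intro h0
      have : J (B' x) = l • x := hx
      rw [h0, map_zero] at this
      exact (smul_ne_zero hl hx0) this.symm
    haveI : Nontrivial W := ⟨⟨⟨B' x, hy1⟩, 0, fun h => hy0 (congrArg Subtype.val h)⟩⟩
    have hVW : ∀ y ∈ W, V y ∈ W := by
      intro y hy
      rw [hWmem] at hy ⊢
      rw [hBV, hy, map_smul]
    obtain ⟨μ, hμ⟩ := Module.End.exists_eigenvalue (V.toLinearMap.restrict hVW : Module.End ℂ W)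
    obtain ⟨w, hw⟩ := hμ.exists_hasEigenvector
    refine ⟨μ, w, fun h => hw.2 (Subtype.ext h), ?_⟩
    have := congrArg Subtype.val hw.apply_eq_smul
    exact this

end Pool.Agent.R237.NH
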