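import Pool.Agent.R237.NH.Mean

/-!
# Operators without dense numerical orbits: lower bounds on an open set, restriction to subspaces,
and a selection lemma for subadditive sequences
-/

set_option autoImplicit false

open Filter Topology

namespace Pool.Agent.R237.NH

universe u

/-- A quadratic polynomial whose constant term is dominated by the leading one has a root in the
closed unit disc. -/
theorem quad_root (A B D : ℂ) (hD : D ≠ 0) (h : ‖A‖ ≤ ‖D‖) :
    ∃ s : ℂ, ‖s‖ ≤ 1 ∧ A + s * B + s ^ 2 * D = 0 := by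
  obtain ⟨w, hw⟩ := IsAlgClosed.exists_pow_nat_eq (B ^ 2 - 4 * D * A) (n := 2) (by norm_num)
  set s1 : ℂ := (-B + w) / (2 * D) with hs1
  set s2 : ℂ := (-B - w) / (2 * D) with hs2
  have e1 : A + s1 * B + s1 ^ 2 * D = 0 := by
    rw [hs1]
    field_simp
    linear_combination hw
  have e2 : A + s2 * B + s2 ^ 2 * D = 0 := by
    rw [hs2]
    field_simp
    linear_combination hw
  have e3 : s1 * s2 = A / D := by
    rw [hs1, hs2]
    field_simp
    linear_combination (-1) * hw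
  have hDn : 0 < ‖D‖ := norm_pos_iff.2 hD
  have e4 : ‖s1‖ * ‖s2‖ ≤ 1 := by
    rw [← norm_mul, e3, norm_div, div_le_one hDn]
    exact h
  by_cases h1 : ‖s1‖ ≤ 1
  · exact ⟨s1, h1, e1⟩
  · refine ⟨s2, ?_, e2⟩
    push Not at h1
    nlinarith [norm_nonneg s2]

/-- If no numerical orbit is dense, then on some open set of pairs the numerical orbits are
comparable to the norms of the powers. -/
theorem open_set {Y : Type u} [NormedAddCommGroup Y] [NormedSpace ℂ Y] [CompleteSpace Y]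
    (T : Y →L[ℂ] Y)
    (hno : ¬ ∃ (y : Y) (g : StrongDual ℂ Y), Dense (Set.range fun n : ℕ => g ((T ^ n) y))) :
    ∃ (y₁ : Y) (g₁ : StrongDual ℂ Y) (δ M : ℝ), 0 < δ ∧ 0 < M ∧
      ∀ (y : Y) (g : StrongDual ℂ Y), ‖y - y₁‖ < δ → ‖g - g₁‖ < δ → ∀ n : ℕ, M ≤ ‖T ^ n‖ →
        δ * ‖T ^ n‖ ≤ ‖g ((T ^ n) y)‖ := by
  set D : Set ℂ → Set (Y × StrongDual ℂ Y) := fun s => {p | ∃ n : ℕ, p.2 ((T ^ n) p.1) ∈ s} with hD
  have hcont : ∀ n : ℕ, Continuous fun p : Y × StrongDual ℂ Y => p.2 ((T ^ n) p.1) := by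
    intro n
    exact Continuous.clm_apply continuous_snd ((T ^ n).continuous.comp continuous_fst)
  have hDo : ∀ s, IsOpen s → IsOpen (D s) := by
    intro s hs
    have : D s = ⋃ n : ℕ, (fun p : Y × StrongDual ℂ Y => p.2 ((T ^ n) p.1)) ⁻¹' s := by
      ext p; simp [hD]
    rw [this]
    exact isOpen_iUnion fun n => hs.preimage (hcont n)
  have hnd : ∃ s ∈ TopologicalSpace.countableBasis ℂ, ¬ Dense (D s) := by
    by_contra hcon
    push Not at hcon
    have h1 : Dense (⋂ s ∈ TopologicalSpace.countableBasis ℂ, D s) :=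
      dense_biInter_of_isOpen
        (fun s hs => hDo s (TopologicalSpace.isOpen_of_mem_countableBasis hs))
        (TopologicalSpace.countable_countableBasis ℂ) hcon
    obtain ⟨p, hp⟩ := h1.nonempty
    refine hno ⟨p.1, p.2, ?_⟩
    rw [(TopologicalSpace.isBasis_countableBasis ℂ).dense_iff]
    intro o ho _
    have h2 := Set.mem_iInter₂.1 hp o ho
    obtain ⟨n, hn⟩ := h2
    exact ⟨_, hn, n, rfl⟩
  obtain ⟨s, hs, hsD⟩ := hnd
  obtain ⟨w₀, hw₀⟩ := TopologicalSpace.nonempty_of_mem_countableBasis hs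
  rw [dense_iff_inter_open] at hsD
  push Not at hsD
  obtain ⟨O, hO, ⟨p, hp⟩, hOD⟩ := hsD
  obtain ⟨r, hr, hrO⟩ := Metric.isOpen_iff.1 hO p hp
  have hball : ∀ (y : Y) (g : StrongDual ℂ Y), ‖y - p.1‖ < r → ‖g - p.2‖ < r → ∀ n : ℕ,
      g ((T ^ n) y) ≠ w₀ := by
    intro y g hy hg n hval
    have h1 : (y, g) ∈ O := by
      apply hrO
      rw [Metric.mem_ball, Prod.dist_eq, max_lt_iff, dist_eq_norm, dist_eq_norm]
      exact ⟨hy, hg⟩
    have h2 : (y, g) ∈ D s := ⟨n, by rw [hval]; exact hw₀⟩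
    have h3 : (y, g) ∈ O ∩ D s := ⟨h1, h2⟩
    rw [hOD] at h3
    exact h3
  refine ⟨p.1, p.2, min (r / 2) (r ^ 2 / 64), 64 * ‖w₀‖ / r ^ 2 + 1, by positivity, by positivity,
    fun y g hy hg n hn => ?_⟩
  have hy' : ‖y - p.1‖ < r / 2 := hy.trans_le (min_le_left _ _)
  have hg' : ‖g - p.2‖ < r / 2 := hg.trans_le (min_le_left _ _)
  set R : ℝ := ‖T ^ n‖ with hR
  have hR1 : 0 < R := lt_of_lt_of_le (by positivity) hn
  obtain ⟨x, hx1, hx2⟩ := (T ^ n).exists_lt_apply_of_lt_opNorm (r := R / 2) (by rw [← hR]; linarith)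
  obtain ⟨h, hh1, hh2⟩ := exists_dual_vector'' ℂ ((T ^ n) x)
  set a : ℂ := ((r / 4 : ℝ) : ℂ) with ha
  have han : ‖a‖ = r / 4 := by rw [ha, Complex.norm_real, Real.norm_of_nonneg (by positivity)]
  set D' : ℂ := (a • h) ((T ^ n) (a • x)) with hD'
  have hD'n : r ^ 2 / 32 * R < ‖D'‖ := by
    rw [hD', map_smul, map_smul, smul_apply, hh2, smul_smul, norm_smul, norm_mul, han,
      RCLike.norm_ofReal, abs_norm]
    nlinarith [mul_pos hr hr]
  have hD'0 : D' ≠ 0 := by
    intro h0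
    rw [h0, norm_zero] at hD'n
    have : 0 < r ^ 2 / 32 * R := by positivity
    linarith
  have hA : ‖D'‖ < ‖g ((T ^ n) y) - w₀‖ := by
    by_contra hcon
    push Not at hcon
    obtain ⟨s, hs1, hs2⟩ := quad_root (g ((T ^ n) y) - w₀)
      (g ((T ^ n) (a • x)) + (a • h) ((T ^ n) y)) D' hD'0 hcon
    refine hball (y + s • a • x) (g + s • a • h) ?_ ?_ n ?_
    · calc ‖y + s • a • x - p.1‖ = ‖(y - p.1) + s • a • x‖ := by congr 1; abel
        _ ≤ ‖y - p.1‖ + ‖s • a • x‖ := norm_add_le _ _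
        _ < r / 2 + r / 2 := by
          refine add_lt_add_of_lt_of_le hy' ?_
          rw [norm_smul, norm_smul, han]
          nlinarith [norm_nonneg s, norm_nonneg x, mul_nonneg (norm_nonneg s) (norm_nonneg x),
            mul_le_mul hs1 hx1.le (norm_nonneg x) zero_le_one]
        _ = r := by ring
    · calc ‖g + s • a • h - p.2‖ = ‖(g - p.2) + s • a • h‖ := by congr 1; abel
        _ ≤ ‖g - p.2‖ + ‖s • a • h‖ := norm_add_le _ _
        _ < r / 2 + r / 2 := by
          refine add_lt_add_of_lt_of_le hg' ?_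
          rw [norm_smul, norm_smul, han]
          nlinarith [norm_nonneg s, norm_nonneg h, mul_nonneg (norm_nonneg s) (norm_nonneg h),
            mul_le_mul hs1 hh1 (norm_nonneg h) zero_le_one]
        _ = r := by ring
    · have e1 : (g + s • a • h) ((T ^ n) (y + s • a • x)) =
          g ((T ^ n) y) + s * (g ((T ^ n) (a • x)) + (a • h) ((T ^ n) y)) + s ^ 2 * D' := by
        rw [hD']
        simp only [map_add, map_smul, add_apply, smul_apply, smul_eq_mul]
        ring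
      rw [e1]
      linear_combination hs2
  have hfin : r ^ 2 / 64 * R ≤ ‖g ((T ^ n) y)‖ := by
    have e1 : ‖g ((T ^ n) y) - w₀‖ ≤ ‖g ((T ^ n) y)‖ + ‖w₀‖ := norm_sub_le _ _
    have e2 : ‖w₀‖ ≤ r ^ 2 / 64 * R := by
      have e3 : 64 * ‖w₀‖ / r ^ 2 ≤ R := by linarith
      rw [div_le_iff₀ (by positivity)] at e3
      linarith
    linarith
  refine le_trans ?_ hfin
  gcongr
  exact min_le_right _ _

/-- Closed subspaces of reflexive spaces are reflexive. -/
theorem reflexive_sub {X : Type u} [NormedAddCommGroup X] [NormedSpace ℂ X]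
    (hr : Function.Surjective (NormedSpace.inclusionInDoubleDual ℂ X))
    (E : Submodule ℂ X) (hE : IsClosed (E : Set X)) :
    Function.Surjective (NormedSpace.inclusionInDoubleDual ℂ E) := by
  intro Φ
  let R : StrongDual ℂ X →L[ℂ] StrongDual ℂ E := ContinuousLinearMap.precomp ℂ E.subtypeL
  have hR : ∀ (g : StrongDual ℂ X) (e : E), R g e = g e := fun g e => rfl
  obtain ⟨y, hy⟩ := hr (Φ ∘L R)
  have hy' : ∀ g : StrongDual ℂ X, g y = Φ (R g) := by
    intro g
    have := congrArg (fun (Ψ : StrongDual ℂ (StrongDual ℂ X)) => Ψ g) hy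
    exact this
  have hyE : y ∈ E := by
    by_contra hne
    haveI : IsClosed (E : Set X) := hE
    have h1 : E.mkQ y ≠ 0 := by
      rw [Submodule.mkQ_apply, Ne, Submodule.Quotient.mk_eq_zero]; exact hne
    obtain ⟨q, -, hq⟩ := exists_dual_vector ℂ (E.mkQ y) (norm_ne_zero_iff.2 h1)
    have h2 : R (q ∘L E.mkQL) = 0 := by
      ext e
      rw [hR]
      have : E.mkQ (e : X) = 0 := by
        rw [Submodule.mkQ_apply, Submodule.Quotient.mk_eq_zero]; exact e.2
      change q (E.mkQL (e : X)) = 0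
      rw [Submodule.mkQL_apply, this, map_zero]
    have h3 := hy' (q ∘L E.mkQL)
    rw [h2, map_zero] at h3
    have h4 : (q ∘L E.mkQL) y = q (E.mkQ y) := by
      change q (E.mkQL y) = _
      rw [Submodule.mkQL_apply]
    rw [h4, hq] at h3
    have h5 : ((‖E.mkQ y‖ : ℝ) : ℂ) ≠ 0 := by exact_mod_cast norm_ne_zero_iff.2 h1
    exact h5 h3
  refine ⟨⟨y, hyE⟩, ?_⟩
  ext g
  obtain ⟨G, hG, -⟩ := exists_extension_norm_eq E g
  have h6 : R G = g := by ext e; rw [hR, hG]
  rw [NormedSpace.dual_def, ← h6, ← hy' G, hR]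

/-- Selection of almost maximal indices. -/
theorem select (u : ℕ → ℝ) (L : ℝ) (hL : 0 ≤ L) (hk : ∀ n : ℕ, L * n ≤ u n)
    (hlim : Tendsto (fun n : ℕ => u n / n) atTop (𝓝 L)) (hunb : ∀ R : ℝ, ∃ n, R ≤ u n)
    (ε : ℝ) (hε : 0 < ε) (R : ℝ) :
    ∃ N : ℕ, R ≤ u N ∧ ∀ n : ℕ, u n - L * n ≤ u N - L * N + 1 + ε * |(n : ℝ) - N| := by
  -- subexponential bound
  have hC : ∃ C : ℝ, ∀ n : ℕ, u n - L * n ≤ ε * n + C := by
    have h1 : ∀ᶠ n : ℕ in atTop, u n / n < L + ε := hlim.eventually_lt_const (by linarith)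
    obtain ⟨n₀, hn₀⟩ := eventually_atTop.1 h1
    refine ⟨∑ i ∈ Finset.range (n₀ + 1), |u i - L * i|, fun n => ?_⟩
    by_cases hn : n ≤ n₀
    · have h2 : |u n - L * n| ≤ ∑ i ∈ Finset.range (n₀ + 1), |u i - L * i| :=
        Finset.single_le_sum (f := fun i : ℕ => |u i - L * i|) (fun _ _ => abs_nonneg _)
          (Finset.mem_range.2 (by omega))
      have h3 : 0 ≤ ε * (n : ℝ) := by positivity
      linarith [le_abs_self (u n - L * n)]
    · push Not at hn
      have h2 := hn₀ n hn.le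
      have hn0 : (0 : ℝ) < n := by
        have : 0 < n := by omega
        exact_mod_cast this
      rw [div_lt_iff₀ hn0] at h2
      have h3 : 0 ≤ ∑ i ∈ Finset.range (n₀ + 1), |u i - L * i| :=
        Finset.sum_nonneg fun _ _ => abs_nonneg _
      nlinarith
  obtain ⟨C, hC⟩ := hC
  -- almost maximal indices
  have hmax : ∀ N : ℕ, ∃ m : ℕ, ∀ n : ℕ,
      u n - L * n - ε * |(n : ℝ) - N| ≤ u m - L * m - ε * |(m : ℝ) - N| + 1 := by
    intro N
    have hbdd : BddAbove (Set.range fun n : ℕ => u n - L * n - ε * |(n : ℝ) - N|) := by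
      refine ⟨ε * N + C, ?_⟩
      rintro _ ⟨n, rfl⟩
      have h1 := hC n
      have h2 : (n : ℝ) - N ≤ |(n : ℝ) - N| := le_abs_self _
      change u n - L * n - ε * |(n : ℝ) - N| ≤ ε * N + C
      nlinarith
    obtain ⟨_, ⟨m, rfl⟩, hm⟩ := exists_lt_of_lt_csSup (Set.range_nonempty _)
      (sub_one_lt (sSup (Set.range fun n : ℕ => u n - L * n - ε * |(n : ℝ) - N|)))
    refine ⟨m, fun n => ?_⟩
    have h3 := le_csSup hbdd ⟨n, rfl⟩
    simp only at h3 hm
    linarith
  have hgood : ∀ N m : ℕ, (∀ n : ℕ,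
      u n - L * n - ε * |(n : ℝ) - N| ≤ u m - L * m - ε * |(m : ℝ) - N| + 1) →
      ∀ n : ℕ, u n - L * n ≤ u m - L * m + 1 + ε * |(n : ℝ) - m| := by
    intro N m h n
    have h1 := h n
    have h2 : |(n : ℝ) - N| ≤ |(n : ℝ) - m| + |(m : ℝ) - N| := abs_sub_le _ _ _
    nlinarith
  rcases hL.eq_or_lt with hL0 | hLp
  · obtain ⟨N, hN⟩ := hunb (R + 1)
    obtain ⟨m, hm⟩ := hmax N
    refine ⟨m, ?_, hgood N m hm⟩
    have h1 := hm N
    rw [← hL0] at h1
    simp only [zero_mul, sub_zero, sub_self, abs_zero, mul_zero] at h1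
    have h2 : 0 ≤ ε * |(m : ℝ) - N| := by positivity
    linarith
  · set q : ℕ := ⌈R / L⌉₊ with hq
    set K : ℝ := ∑ i ∈ Finset.range (q + 1), |u i - L * i| with hK
    obtain ⟨N, hN⟩ := exists_nat_ge ((q : ℝ) + (K + 2) / ε)
    obtain ⟨m, hm⟩ := hmax N
    refine ⟨m, ?_, hgood N m hm⟩
    have hqm : q ≤ m := by
      by_contra hcon
      push Not at hcon
      have h1 := hm N
      simp only [sub_self, abs_zero, mul_zero, sub_zero] at h1
      have h2 := hk N
      have h3 : |u m - L * m| ≤ K :=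
        Finset.single_le_sum (f := fun i : ℕ => |u i - L * i|) (fun _ _ => abs_nonneg _)
          (Finset.mem_range.2 (by omega))
      have h4 : (N : ℝ) - m ≤ |(m : ℝ) - N| := by rw [abs_sub_comm]; exact le_abs_self _
      have h5 : (m : ℝ) ≤ q := by exact_mod_cast hcon.le
      have h6 : (K + 2) / ε ≤ |(m : ℝ) - N| := by linarith
      rw [div_le_iff₀ hε] at h6
      have h7 := le_abs_self (u m - L * m)
      linarith
    have h8 : R / L ≤ m := (Nat.le_ceil _).trans (by exact_mod_cast hqm)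
    rw [div_le_iff₀ hLp] at h8
    have h9 := hk m
    linarith

end Pool.Agent.R237.NH
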