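import Pool.Agent.R237.NH.Jdlg
import Pool.Agent.R237.NH.Open

/-!
# Operators on reflexive spaces which are not power bounded and have no eigenvalues
-/

set_option autoImplicit false

open Filter Topology

namespace Pool.Agent.R237.NH

universe u

variable {X : Type u} [NormedAddCommGroup X] [NormedSpace ℂ X]

/-- The subspace of vectors whose orbit grows at most like `exp (L n)`. -/
def slow (T : X →L[ℂ] X) (L : ℝ) : Submodule ℂ X where
  carrier := {y | ∃ C : ℝ, ∀ n : ℕ, ‖(T ^ n) y‖ ≤ C * Real.exp (L * n)}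
  zero_mem' := ⟨0, fun n => by simp⟩
  add_mem' := by
    rintro a b ⟨C, hC⟩ ⟨D, hD⟩
    refine ⟨C + D, fun n => ?_⟩
    rw [map_add, add_mul]
    exact (norm_add_le _ _).trans (add_le_add (hC n) (hD n))
  smul_mem' := by
    rintro t a ⟨C, hC⟩
    refine ⟨‖t‖ * C, fun n => ?_⟩
    rw [map_smul, norm_smul, mul_assoc]
    exact mul_le_mul_of_nonneg_left (hC n) (norm_nonneg _)

theorem slow_map (T : X →L[ℂ] X) (L : ℝ) : ∀ y ∈ slow T L, T y ∈ slow T L := by
  rintro y ⟨C, hC⟩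
  refine ⟨C * Real.exp L, fun n => ?_⟩
  have h := hC (n + 1)
  rw [pow_succ] at h
  have h2 : C * Real.exp L * Real.exp (L * n) = C * Real.exp (L * ((n + 1 : ℕ) : ℝ)) := by
    rw [mul_assoc, ← Real.exp_add]
    push_cast
    ring_nf
  rw [h2]
  exact h

theorem closure_map (T : X →L[ℂ] X) (L : ℝ) :
    ∀ y ∈ (slow T L).topologicalClosure, T y ∈ (slow T L).topologicalClosure := by
  intro y hy
  exact map_mem_closure T.continuous hy (fun z hz => slow_map T L z hz)

theorem restrict_pow (T : X →L[ℂ] X) (E : Submodule ℂ X) (h : ∀ y ∈ E, T y ∈ E) (n : ℕ) (y : E) :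
    (((T.restrict h) ^ n) y : X) = (T ^ n) (y : X) := by
  induction n generalizing y with
  | zero => rfl
  | succ n ih =>
    rw [pow_succ, pow_succ]
    change (((T.restrict h) ^ n) ((T.restrict h) y) : X) = (T ^ n) (T y)
    rw [ih]
    rfl

/-- On the closure of the space of slow vectors the powers are bounded by `exp (L n)`. -/
theorem closure_bound [CompleteSpace X] (T : X →L[ℂ] X)
    (hno : ¬ ∃ (y : X) (g : StrongDual ℂ X), Dense (Set.range fun n : ℕ => g ((T ^ n) y)))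
    (L : ℝ) (hL : 0 ≤ L) :
    ∃ C : ℝ, 0 < C ∧ ∀ n : ℕ, ‖(T.restrict (closure_map T L)) ^ n‖ ≤ C * Real.exp (L * n) := by
  set E : Submodule ℂ X := (slow T L).topologicalClosure with hE
  set S : E →L[ℂ] E := T.restrict (closure_map T L) with hS
  have hEc : IsClosed (E : Set X) := (slow T L).isClosed_topologicalClosure
  haveI : CompleteSpace E := hEc.completeSpace_coe
  have hpow : ∀ (n : ℕ) (y : E), ((S ^ n) y : X) = (T ^ n) (y : X) :=
    restrict_pow T E (closure_map T L)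
  have hno' : ¬ ∃ (y : E) (g : StrongDual ℂ E), Dense (Set.range fun n : ℕ => g ((S ^ n) y)) := by
    rintro ⟨y, g, hd⟩
    obtain ⟨G, hG, -⟩ := exists_extension_norm_eq E g
    refine hno ⟨y, G, ?_⟩
    have : (fun n : ℕ => G ((T ^ n) (y : X))) = fun n : ℕ => g ((S ^ n) y) := by
      funext n
      rw [← hG, hpow]
    rw [this]
    exact hd
  obtain ⟨y₁, g₁, δ, M, hδ, hM, hmain⟩ := open_set S hno'
  have hy₁ : (y₁ : X) ∈ closure (slow T L : Set X) := y₁.2
  obtain ⟨z, hz, hzd⟩ := Metric.mem_closure_iff.1 hy₁ δ hδ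
  have hzE : z ∈ E := (slow T L).le_topologicalClosure hz
  obtain ⟨C, hC⟩ := hz
  have hC0 : 0 ≤ C := by
    have := hC 0
    simp only [Nat.cast_zero, mul_zero, Real.exp_zero, mul_one] at this
    exact (norm_nonneg _).trans this
  have hzn : ‖(⟨z, hzE⟩ : E) - y₁‖ < δ := by
    change ‖z - (y₁ : X)‖ < δ
    rw [← dist_eq_norm, dist_comm]
    exact hzd
  have hexp : ∀ n : ℕ, 1 ≤ Real.exp (L * n) := fun n => Real.one_le_exp (by positivity)
  refine ⟨M + ‖g₁‖ * C / δ, by positivity, fun n => ?_⟩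
  by_cases hn : M ≤ ‖S ^ n‖
  · have h1 := hmain ⟨z, hzE⟩ g₁ hzn (by simpa using hδ) n hn
    have h2 : ‖g₁ ((S ^ n) ⟨z, hzE⟩)‖ ≤ ‖g₁‖ * (C * Real.exp (L * n)) := by
      refine (g₁.le_opNorm _).trans ?_
      gcongr
      change ‖(((S ^ n) ⟨z, hzE⟩ : E) : X)‖ ≤ _
      rw [hpow]
      exact hC n
    have h3 : ‖S ^ n‖ ≤ ‖g₁‖ * C / δ * Real.exp (L * n) := by
      rw [div_mul_eq_mul_div, le_div_iff₀ hδ]
      calc ‖S ^ n‖ * δ = δ * ‖S ^ n‖ := mul_comm _ _
        _ ≤ ‖g₁‖ * (C * Real.exp (L * n)) := h1.trans h2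
        _ = _ := by ring
    refine h3.trans ?_
    gcongr
    linarith
  · push Not at hn
    refine hn.le.trans ?_
    calc M = M * 1 := (mul_one _).symm
      _ ≤ (M + ‖g₁‖ * C / δ) * Real.exp (L * n) := by
        gcongr
        · have : 0 ≤ ‖g₁‖ * C / δ := by positivity
          linarith
        · exact hexp n

/-- If `T` is not power bounded, all powers have norm at least one. -/
theorem one_le_norm_pow (T : X →L[ℂ] X) (hpb : ¬ ∃ C : ℝ, ∀ n : ℕ, ‖T ^ n‖ ≤ C) (k : ℕ) :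
    1 ≤ ‖T ^ k‖ := by
  by_contra hcon
  push Not at hcon
  have hk : k ≠ 0 := by
    rintro rfl
    apply hpb
    refine ⟨0, fun n => ?_⟩
    have h1 : ‖(1 : X →L[ℂ] X)‖ < 1 := by simpa using hcon
    have h0 : (1 : X →L[ℂ] X) = 0 := by
      by_contra hne
      have h2 : ∃ x : X, x ≠ 0 := by
        by_contra h3
        push Not at h3
        apply hne
        ext x
        simp [h3 x]
      obtain ⟨x, hx⟩ := h2
      have h4 := (1 : X →L[ℂ] X).le_opNorm x
      have h5 : (1 : X →L[ℂ] X) x = x := rfl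
      rw [h5] at h4
      have h6 : 0 < ‖x‖ := norm_pos_iff.2 hx
      nlinarith
    have : T ^ n = 0 := by
      calc T ^ n = 1 * T ^ n := (one_mul _).symm
        _ = 0 := by rw [h0, zero_mul]
    rw [this, norm_zero]
  apply hpb
  refine ⟨∑ i ∈ Finset.range k, ‖T ^ i‖, fun n => ?_⟩
  have h1 : T ^ n = (T ^ k) ^ (n / k) * T ^ (n % k) := by
    rw [← pow_mul, ← pow_add, Nat.div_add_mod]
  have h2 : ‖T ^ (n % k)‖ ≤ ∑ i ∈ Finset.range k, ‖T ^ i‖ :=
    Finset.single_le_sum (f := fun i => ‖T ^ i‖) (fun _ _ => norm_nonneg _)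
      (Finset.mem_range.2 (Nat.mod_lt _ (Nat.pos_of_ne_zero hk)))
  refine le_trans ?_ h2
  rcases Nat.eq_zero_or_pos (n / k) with h0 | h0
  · rw [h1, h0, pow_zero, one_mul]
  · calc ‖T ^ n‖ ≤ ‖(T ^ k) ^ (n / k)‖ * ‖T ^ (n % k)‖ := by
          rw [h1]; exact norm_mul_le _ _
      _ ≤ 1 * ‖T ^ (n % k)‖ := by
        gcongr
        exact (norm_pow_le' _ h0).trans (pow_le_one₀ (norm_nonneg _) hcon.le)
      _ = _ := one_mul _

/-- The last limit: an eigenvector is found. -/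
theorem final_step {Y : Type u} [NormedAddCommGroup Y] [NormedSpace ℂ Y]
    (hr : Function.Surjective (NormedSpace.inclusionInDoubleDual ℂ Y))
    (S : Y →L[ℂ] Y) (L CE K c₂ : ℝ) (hc₂p : 0 < c₂)
    (hSb : ∀ n : ℕ, ‖S ^ n‖ ≤ CE * Real.exp (L * n))
    (f : StrongDual ℂ Y) (w : ℕ → Y)
    (hwb : ∀ k : ℕ, ‖w k‖ ≤ K * Real.exp (2 - L * k))
    (hlow : ∀ k p : ℕ, p ≤ k →
      c₂ ≤ Real.exp (L * k) * Real.exp (-(L * p)) * ‖f ((S ^ p) (w k))‖) :
    ∃ (μ : ℂ) (v : Y), v ≠ 0 ∧ S v = μ • v := by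
  let V : Y →L[ℂ] Y := ((Real.exp (-L) : ℝ) : ℂ) • S
  have hVpow : ∀ n : ℕ, V ^ n = ((Real.exp (-(L * n)) : ℝ) : ℂ) • S ^ n := by
    intro n
    change (((Real.exp (-L) : ℝ) : ℂ) • S) ^ n = _
    rw [smul_pow, ← Complex.ofReal_pow, ← Real.exp_nat_mul]
    ring_nf
  have hVb : ∀ n : ℕ, ‖V ^ n‖ ≤ CE := by
    intro n
    rw [hVpow, norm_smul, Complex.norm_real, Real.norm_of_nonneg (Real.exp_nonneg _)]
    calc Real.exp (-(L * n)) * ‖S ^ n‖ ≤ Real.exp (-(L * n)) * (CE * Real.exp (L * n)) := by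
          gcongr
          exact hSb n
      _ = CE * (Real.exp (-(L * n)) * Real.exp (L * n)) := by ring
      _ = CE := by rw [← Real.exp_add]; simp
  let y : ℕ → Y := fun k => ((Real.exp (L * k) : ℝ) : ℂ) • w k
  have hyb : ∀ k, ‖y k‖ ≤ K * Real.exp 2 := by
    intro k
    change ‖((Real.exp (L * k) : ℝ) : ℂ) • w k‖ ≤ _
    rw [norm_smul, Complex.norm_real, Real.norm_of_nonneg (Real.exp_nonneg _)]
    have h3 := hwb k
    calc Real.exp (L * k) * ‖w k‖ ≤ Real.exp (L * k) * (K * Real.exp (2 - L * k)) := by gcongr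
      _ = K * (Real.exp (L * k) * Real.exp (2 - L * k)) := by ring
      _ = K * Real.exp 2 := by rw [← Real.exp_add]; ring_nf
  obtain ⟨z, -, hz⟩ := exists_wlim hr (hyperfilter ℕ) y (K * Real.exp 2) hyb
  have hhyp : (hyperfilter ℕ : Filter ℕ) ≤ atTop := by
    rw [← Nat.cofinite_eq_atTop]; exact hyperfilter_le_cofinite
  have hfin : ∀ n : ℕ, c₂ ≤ ‖f ((V ^ n) z)‖ := by
    intro n
    have h2 := (hz (f ∘L (V ^ n))).norm
    refine ge_of_tendsto h2 ?_
    have h3 : ∀ᶠ k in atTop, c₂ ≤ ‖(f ∘L (V ^ n)) (y k)‖ := by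
      filter_upwards [eventually_ge_atTop n] with k hk
      have h4 : (f ∘L (V ^ n)) (y k) =
          ((Real.exp (L * k) : ℝ) : ℂ) * (((Real.exp (-(L * n)) : ℝ) : ℂ) * f ((S ^ n) (w k))) := by
        change f ((V ^ n) (((Real.exp (L * k) : ℝ) : ℂ) • w k)) = _
        rw [hVpow, smul_apply, map_smul, map_smul, map_smul, smul_eq_mul, smul_eq_mul]
        ring
      rw [h4, norm_mul, norm_mul, Complex.norm_real, Complex.norm_real,
        Real.norm_of_nonneg (Real.exp_nonneg _), Real.norm_of_nonneg (Real.exp_nonneg _),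
        ← mul_assoc]
      exact hlow k n hk
    exact h3.filter_mono hhyp
  obtain ⟨μ, v, hv0, hv⟩ := exists_eigenvector hr V CE hVb z f c₂ hc₂p hfin
  refine ⟨((Real.exp L : ℝ) : ℂ) * μ, v, hv0, ?_⟩
  have h2 : ((Real.exp (-L) : ℝ) : ℂ) • S v = μ • v := hv
  have h4 : ((Real.exp L : ℝ) : ℂ) * ((Real.exp (-L) : ℝ) : ℂ) = 1 := by
    rw [← Complex.ofReal_mul, ← Real.exp_add]
    simp
  rw [mul_smul, ← h2, smul_smul, h4, one_smul]

/-- **Main theorem.** -/
theorem dense_orbit [CompleteSpace X]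
    (hr : Function.Surjective (NormedSpace.inclusionInDoubleDual ℂ X))
    (T : X →L[ℂ] X) (hpb : ¬ ∃ C : ℝ, ∀ n : ℕ, ‖T ^ n‖ ≤ C)
    (hev : ∀ (μ : ℂ) (v : X), T v = μ • v → v = 0) :
    ∃ (x : X) (f : StrongDual ℂ X), Dense (Set.range fun n : ℕ => f ((T ^ n) x)) := by
  by_contra hno
  obtain ⟨x, f, δ, M, hδ, hM, hmain⟩ := open_set T hno
  have hT : ∀ n : ℕ, M ≤ ‖T ^ n‖ → δ * ‖T ^ n‖ ≤ ‖f ((T ^ n) x)‖ := fun n hn =>
    hmain x f (by simpa using hδ) (by simpa using hδ) n hn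
  have h1 := one_le_norm_pow T hpb
  have hpos : ∀ n : ℕ, 0 < ‖T ^ n‖ := fun n => lt_of_lt_of_le one_pos (h1 n)
  set u : ℕ → ℝ := fun n => Real.log ‖T ^ n‖ with hu
  have hexp : ∀ n, Real.exp (u n) = ‖T ^ n‖ := fun n => Real.exp_log (hpos n)
  have hu0 : ∀ n, 0 ≤ u n := fun n => Real.log_nonneg (h1 n)
  have hsub : Subadditive u := by
    intro m n
    simp only [hu]
    rw [← Real.log_mul (hpos m).ne' (hpos n).ne', pow_add]
    exact Real.log_le_log (by rw [← pow_add]; exact hpos _) (norm_mul_le _ _)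
  have hbdd : BddBelow (Set.range fun n : ℕ => u n / n) := by
    refine ⟨0, ?_⟩
    rintro _ ⟨n, rfl⟩
    exact div_nonneg (hu0 n) (Nat.cast_nonneg n)
  set L : ℝ := hsub.lim with hLdef
  have hlim : Tendsto (fun n : ℕ => u n / n) atTop (𝓝 L) := hsub.tendsto_lim hbdd
  have hL : 0 ≤ L := ge_of_tendsto' hlim fun n => div_nonneg (hu0 n) (Nat.cast_nonneg n)
  have hk : ∀ n : ℕ, L * n ≤ u n := by
    intro n
    rcases Nat.eq_zero_or_pos n with rfl | hn
    · simpa using hu0 0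
    · have h2 := hsub.lim_le_div hbdd hn.ne'
      rwa [le_div_iff₀ (by exact_mod_cast hn)] at h2
  have hunb : ∀ R : ℝ, ∃ n, R ≤ u n := by
    intro R
    by_contra hcon
    push Not at hcon
    refine hpb ⟨Real.exp R, fun n => ?_⟩
    rw [← hexp]
    exact Real.exp_le_exp.2 (hcon n).le
  choose N hN1 hN2 using fun j : ℕ =>
    select u L hL hk hlim hunb (1 / ((j : ℝ) + 1)) (by positivity) (j + Real.log (M + 1))
  have hlogM : 0 ≤ Real.log (M + 1) := Real.log_nonneg (by linarith)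
  have hMle : ∀ n : ℕ, Real.log (M + 1) ≤ u n → M ≤ ‖T ^ n‖ := by
    intro n hn
    rw [← hexp n]
    calc M ≤ M + 1 := by linarith
      _ = Real.exp (Real.log (M + 1)) := (Real.exp_log (by linarith)).symm
      _ ≤ _ := Real.exp_le_exp.2 hn
  set a : ℕ → ℂ := fun j => f ((T ^ (N j)) x) with ha
  have hNM : ∀ j, M ≤ ‖T ^ (N j)‖ := fun j => hMle _ (by
    have := hN1 j
    have h0 : (0 : ℝ) ≤ j := Nat.cast_nonneg j
    linarith)
  have haj : ∀ j, δ * Real.exp (u (N j)) ≤ ‖a j‖ := by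
    intro j
    rw [hexp]
    exact hT _ (hNM j)
  have hajp : ∀ j, 0 < ‖a j‖ := fun j => lt_of_lt_of_le (by positivity) (haj j)
  have hx : 0 < ‖x‖ := by
    by_contra h0
    have h2 : x = 0 := by
      rw [← norm_le_zero_iff]; exact not_lt.1 h0
    have h3 := hajp 0
    simp [ha, h2] at h3
  set K : ℝ := ‖x‖ / δ with hK
  have hKp : 0 < K := by positivity
  -- norms of the normalized iterates
  have hratio : ∀ j n : ℕ, ‖(a j)⁻¹ • (T ^ n) x‖ ≤ K * Real.exp (u n - u (N j)) := by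
    intro j n
    rw [norm_smul, norm_inv, inv_mul_le_iff₀ (hajp j)]
    calc ‖(T ^ n) x‖ ≤ ‖T ^ n‖ * ‖x‖ := (T ^ n).le_opNorm x
      _ = (δ * Real.exp (u (N j))) * (K * Real.exp (u n - u (N j))) := by
        rw [Real.exp_sub, hexp, hexp, hK]
        have := (hpos (N j)).ne'
        field_simp
      _ ≤ _ := by gcongr; exact haj j
  have hdiff : ∀ j n : ℕ, u n - u (N j) ≤ L * ((n : ℝ) - N j) + 1 + 1 / ((j : ℝ) + 1) * |(n : ℝ) - N j| := by
    intro j n
    have := hN2 j n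
    linarith
  -- the indices tend to infinity
  have hNinf : ∀ k : ℕ, ∀ᶠ j in atTop, k ≤ N j := by
    intro k
    obtain ⟨J, hJ⟩ := exists_nat_gt (∑ i ∈ Finset.range k, u i)
    filter_upwards [eventually_ge_atTop J] with j hj
    by_contra hcon
    push Not at hcon
    have h2 : u (N j) ≤ ∑ i ∈ Finset.range k, u i :=
      Finset.single_le_sum (f := u) (fun i _ => hu0 i) (Finset.mem_range.2 hcon)
    have h3 := hN1 j
    have h4 : (J : ℝ) ≤ j := by exact_mod_cast hj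
    linarith
  have hhyp : (hyperfilter ℕ : Filter ℕ) ≤ atTop := by
    rw [← Nat.cofinite_eq_atTop]; exact hyperfilter_le_cofinite
  -- the weak limits
  have hwex : ∀ k : ℕ, ∃ w : X, ∀ g : StrongDual ℂ X,
      Tendsto (fun j => g ((a j)⁻¹ • (T ^ (N j - k)) x)) (hyperfilter ℕ : Filter ℕ) (𝓝 (g w)) := by
    intro k
    obtain ⟨w, -, hw⟩ := exists_wlim hr (hyperfilter ℕ) (fun j => (a j)⁻¹ • (T ^ (N j - k)) x)
      (K * Real.exp (1 + k)) (fun j => by
        refine (hratio j _).trans ?_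
        gcongr
        refine (hdiff j _).trans ?_
        have h2 : ((N j - k : ℕ) : ℝ) ≤ N j := by exact_mod_cast Nat.sub_le _ _
        have h3 : (N j : ℝ) ≤ ((N j - k : ℕ) : ℝ) + k := by
          have : N j ≤ N j - k + k := by omega
          exact_mod_cast this
        have h4 : |((N j - k : ℕ) : ℝ) - N j| ≤ k := by
          rw [abs_le]; constructor <;> linarith
        have h5 : L * (((N j - k : ℕ) : ℝ) - N j) ≤ 0 :=
          mul_nonpos_of_nonneg_of_nonpos hL (by linarith)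
        have h6 : 1 / ((j : ℝ) + 1) ≤ 1 := by
          rw [div_le_one (by positivity)]
          have : (0 : ℝ) ≤ j := Nat.cast_nonneg j
          linarith
        have h7 : 1 / ((j : ℝ) + 1) * |((N j - k : ℕ) : ℝ) - N j| ≤ 1 * k :=
          mul_le_mul h6 h4 (abs_nonneg _) zero_le_one
        linarith)
    exact ⟨w, hw⟩
  choose w hw using hwex
  have hwT : ∀ (k p : ℕ) (g : StrongDual ℂ X),
      Tendsto (fun j => g ((a j)⁻¹ • (T ^ (p + (N j - k))) x)) (hyperfilter ℕ : Filter ℕ)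
        (𝓝 (g ((T ^ p) (w k)))) := by
    intro k p g
    refine (hw k (g ∘L (T ^ p))).congr fun j => ?_
    change g ((T ^ p) ((a j)⁻¹ • (T ^ (N j - k)) x)) = _
    rw [map_smul, pow_add]
    rfl
  -- upper bound
  have hup : ∀ k p : ℕ, ‖(T ^ p) (w k)‖ ≤ K * Real.exp (2 - L * k) * Real.exp (L * p) := by
    intro k p
    refine NormedSpace.norm_le_dual_bound ℂ _ (by positivity) fun g => ?_
    refine le_of_tendsto (hwT k p g).norm ?_
    have h2 : ∀ᶠ j in atTop, ‖g ((a j)⁻¹ • (T ^ (p + (N j - k))) x)‖ ≤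
        K * Real.exp (2 - L * k) * Real.exp (L * p) * ‖g‖ := by
      filter_upwards [hNinf k, eventually_ge_atTop (p + k)] with j hj1 hj2
      refine (g.le_opNorm _).trans ?_
      rw [mul_comm]
      gcongr
      refine (hratio j _).trans ?_
      rw [mul_assoc, ← Real.exp_add]
      gcongr
      refine (hdiff j _).trans ?_
      have h3 : ((p + (N j - k) : ℕ) : ℝ) = p + ((N j : ℝ) - k) := by
        rw [Nat.cast_add, Nat.cast_sub hj1]
      rw [h3]
      have h4 : (p : ℝ) + ((N j : ℝ) - k) - N j = p - k := by ring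
      rw [h4]
      have h5 : |(p : ℝ) - k| ≤ j := by
        have h6 : (p : ℝ) + k ≤ j := by exact_mod_cast hj2
        have h7 : (0 : ℝ) ≤ p := Nat.cast_nonneg p
        have h8 : (0 : ℝ) ≤ k := Nat.cast_nonneg k
        rw [abs_le]; constructor <;> linarith
      have h9 : 1 / ((j : ℝ) + 1) * |(p : ℝ) - k| ≤ 1 := by
        rw [div_mul_eq_mul_div, one_mul, div_le_one (by positivity)]
        linarith
      linarith
    exact h2.filter_mono hhyp
  have hone : ∀ k : ℕ, f ((T ^ k) (w k)) = 1 := by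
    intro k
    refine tendsto_nhds_unique (hwT k k f) ?_
    refine tendsto_const_nhds.congr' ?_
    have h2 : ∀ᶠ j in atTop, (1 : ℂ) = f ((a j)⁻¹ • (T ^ (k + (N j - k))) x) := by
      filter_upwards [hNinf k] with j hj
      rw [Nat.add_sub_cancel' hj, map_smul, smul_eq_mul]
      exact (inv_mul_cancel₀ (norm_pos_iff.1 (hajp j))).symm
    exact h2.filter_mono hhyp
  have hcone : ∀ k p : ℕ, p ≤ k → ‖(T ^ p) (w k)‖ ≤ K * ‖f ((T ^ p) (w k))‖ := by
    intro k p hpk
    refine NormedSpace.norm_le_dual_bound ℂ _ (by positivity) fun g => ?_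
    have hl1 := (hwT k p g).norm
    have hl2 := ((hwT k p f).norm.const_mul K).mul_const ‖g‖
    refine le_of_tendsto_of_tendsto hl1 hl2 ?_
    have h2 : ∀ᶠ j in atTop, ‖g ((a j)⁻¹ • (T ^ (p + (N j - k))) x)‖ ≤
        K * ‖f ((a j)⁻¹ • (T ^ (p + (N j - k))) x)‖ * ‖g‖ := by
      obtain ⟨J, hJ⟩ := exists_nat_ge (u (k - p))
      filter_upwards [hNinf k, eventually_ge_atTop J] with j hj1 hj2
      set n : ℕ := p + (N j - k) with hn
      have h3 : u (N j) ≤ u n + u (k - p) := by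
        have h4 : N j = n + (k - p) := by omega
        rw [h4]
        exact hsub _ _
      have h5 : M ≤ ‖T ^ n‖ := by
        apply hMle
        have h6 := hN1 j
        have h7 : (J : ℝ) ≤ j := by exact_mod_cast hj2
        linarith
      have h8 := hT n h5
      refine (g.le_opNorm _).trans ?_
      rw [mul_comm]
      gcongr
      rw [norm_smul, map_smul, norm_smul, norm_inv]
      have h9 : ‖(T ^ n) x‖ ≤ K * ‖f ((T ^ n) x)‖ := by
        calc ‖(T ^ n) x‖ ≤ ‖T ^ n‖ * ‖x‖ := (T ^ n).le_opNorm x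
          _ = K * (δ * ‖T ^ n‖) := by rw [hK]; field_simp
          _ ≤ _ := by gcongr
      calc ‖a j‖⁻¹ * ‖(T ^ n) x‖ ≤ ‖a j‖⁻¹ * (K * ‖f ((T ^ n) x)‖) := by gcongr
        _ = _ := by ring
    exact h2.filter_mono hhyp
  -- the invariant subspace
  obtain ⟨CE, hCE, hSb⟩ := closure_bound T hno L hL
  set E : Submodule ℂ X := (slow T L).topologicalClosure with hE
  set S : E →L[ℂ] E := T.restrict (closure_map T L) with hS
  have hSpow : ∀ (n : ℕ) (y : E), ((S ^ n) y : X) = (T ^ n) (y : X) :=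
    restrict_pow T E (closure_map T L)
  have hwE : ∀ k, w k ∈ E := fun k => (slow T L).le_topologicalClosure ⟨_, hup k⟩
  have hTE : ∀ (n : ℕ) (y : X), y ∈ E → ‖(T ^ n) y‖ ≤ CE * Real.exp (L * n) * ‖y‖ := by
    intro n y hy
    have h2 := (S ^ n).le_opNorm ⟨y, hy⟩
    have h3 : ‖(T ^ n) y‖ = ‖(S ^ n) ⟨y, hy⟩‖ := by
      change _ = ‖(((S ^ n) ⟨y, hy⟩ : E) : X)‖
      rw [hSpow]
    rw [h3]
    refine h2.trans ?_
    change ‖S ^ n‖ * ‖y‖ ≤ _
    gcongr
    exact hSb n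
  have hTmem : ∀ (n : ℕ) (y : X), y ∈ E → (T ^ n) y ∈ E := by
    intro n y hy
    have h2 := ((S ^ n) ⟨y, hy⟩).2
    rw [hSpow] at h2
    exact h2
  set c₂ : ℝ := (‖f‖ * CE * K)⁻¹ with hc₂
  have hfp : 0 < ‖f‖ := by
    rw [norm_pos_iff]
    rintro rfl
    have := hone 0
    simp at this
  have hc₂p : 0 < c₂ := by positivity
  have hlow : ∀ k p : ℕ, p ≤ k → c₂ ≤ Real.exp (L * k) * Real.exp (-(L * p)) * ‖f ((T ^ p) (w k))‖ := by
    intro k p hpk
    have h2 : (1 : ℝ) ≤ ‖f‖ * (CE * Real.exp (L * ((k - p : ℕ) : ℝ)) * (K * ‖f ((T ^ p) (w k))‖)) := by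
      calc (1 : ℝ) = ‖f ((T ^ k) (w k))‖ := by rw [hone]; simp
        _ = ‖f ((T ^ (k - p)) ((T ^ p) (w k)))‖ := by
          have : T ^ k = T ^ (k - p) * T ^ p := by rw [← pow_add, Nat.sub_add_cancel hpk]
          rw [this]; rfl
        _ ≤ ‖f‖ * ‖(T ^ (k - p)) ((T ^ p) (w k))‖ := f.le_opNorm _
        _ ≤ ‖f‖ * (CE * Real.exp (L * ((k - p : ℕ) : ℝ)) * ‖(T ^ p) (w k)‖) := by
          gcongr
          exact hTE _ _ (hTmem p _ (hwE k))
        _ ≤ _ := by
          gcongr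
          exact hcone k p hpk
    have h3 : Real.exp (L * k) * Real.exp (-(L * p)) = Real.exp (L * ((k - p : ℕ) : ℝ)) := by
      rw [← Real.exp_add, Nat.cast_sub hpk]
      ring_nf
    rw [h3, hc₂, inv_le_iff_one_le_mul₀ (by positivity)]
    calc (1 : ℝ) ≤ _ := h2
      _ = _ := by ring
  have hEc : IsClosed (E : Set X) := (slow T L).isClosed_topologicalClosure
  obtain ⟨μ, v, hv0, hv⟩ := final_step (reflexive_sub hr E hEc) S L CE K c₂ hc₂p hSb
    (f ∘L E.subtypeL) (fun k => ⟨w k, hwE k⟩) (fun k => by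
      have h2 := hup k 0
      simp only [pow_zero, Nat.cast_zero, mul_zero, Real.exp_zero, mul_one] at h2
      exact h2) (fun k p hpk => by
      have h2 := hlow k p hpk
      rw [← hSpow p ⟨w k, hwE k⟩] at h2
      exact h2)
  apply hv0
  exact Subtype.ext (hev μ v (congrArg Subtype.val hv))

end Pool.Agent.R237.NH
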