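import Mathlib

/-!
# Means of bounded sequences and weak limits in reflexive spaces
-/

set_option autoImplicit false

open Filter Topology Finset ComplexConjugate

namespace Pool.Agent.R237.NH

/-- A bounded family of complex numbers converges along every ultrafilter. -/
theorem exists_ulim {ι : Type*} (U : Ultrafilter ι) (b : ι → ℂ) (C : ℝ)
    (hb : ∀ i, ‖b i‖ ≤ C) : ∃ L : ℂ, Tendsto b U (𝓝 L) := by
  have h1 : (U.map b : Filter ℂ) ≤ 𝓟 (Metric.closedBall (0 : ℂ) C) := by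
    rw [le_principal_iff, Ultrafilter.coe_map, Filter.mem_map]
    exact Filter.univ_mem' fun i => by
      simp only [Set.mem_preimage, mem_closedBall_zero_iff]; exact hb i
  obtain ⟨L, _, hL⟩ := (isCompact_closedBall (0 : ℂ) C).ultrafilter_le_nhds (U.map b) h1
  exact ⟨L, hL⟩

/-- The Cesàro averages of a sequence. -/
noncomputable def avg (c : ℕ → ℂ) (N : ℕ) : ℂ := ((N : ℂ) + 1)⁻¹ * ∑ n ∈ range (N + 1), c n

/-- A generalized limit of the Cesàro averages. -/
noncomputable def mean (c : ℕ → ℂ) : ℂ := limUnder (hyperfilter ℕ : Filter ℕ) (avg c)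

theorem avg_norm_le (c : ℕ → ℂ) (C : ℝ) (hc : ∀ n, ‖c n‖ ≤ C) (N : ℕ) : ‖avg c N‖ ≤ C := by
  unfold avg
  rw [norm_mul, norm_inv]
  have h1 : ‖(N : ℂ) + 1‖ = (N : ℝ) + 1 := by
    have : (N : ℂ) + 1 = ((N + 1 : ℝ) : ℂ) := by push_cast; ring
    rw [this, Complex.norm_real, Real.norm_of_nonneg (by positivity)]
  rw [h1]
  have h2 : ‖∑ n ∈ range (N + 1), c n‖ ≤ ((N : ℝ) + 1) * C := by
    refine (norm_sum_le _ _).trans ((sum_le_sum fun n _ => hc n).trans ?_)
    simp
  calc ((N : ℝ) + 1)⁻¹ * ‖∑ n ∈ range (N + 1), c n‖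
      ≤ ((N : ℝ) + 1)⁻¹ * (((N : ℝ) + 1) * C) := by gcongr
    _ = C := by field_simp

theorem tendsto_mean (c : ℕ → ℂ) (C : ℝ) (hc : ∀ n, ‖c n‖ ≤ C) :
    Tendsto (avg c) (hyperfilter ℕ : Filter ℕ) (𝓝 (mean c)) :=
  tendsto_nhds_limUnder (exists_ulim _ _ C (avg_norm_le c C hc))

theorem mean_eq (c : ℕ → ℂ) (L : ℂ) (h : Tendsto (avg c) (hyperfilter ℕ : Filter ℕ) (𝓝 L)) :
    mean c = L := h.limUnder_eq

theorem mean_add (c d : ℕ → ℂ) (C D : ℝ) (hc : ∀ n, ‖c n‖ ≤ C) (hd : ∀ n, ‖d n‖ ≤ D) :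
    mean (fun n => c n + d n) = mean c + mean d := by
  apply mean_eq
  have h := (tendsto_mean c C hc).add (tendsto_mean d D hd)
  refine h.congr fun N => ?_
  simp only [avg, sum_add_distrib]
  ring

theorem mean_const_mul (a : ℂ) (c : ℕ → ℂ) (C : ℝ) (hc : ∀ n, ‖c n‖ ≤ C) :
    mean (fun n => a * c n) = a * mean c := by
  apply mean_eq
  have h := (tendsto_mean c C hc).const_mul a
  refine h.congr fun N => ?_
  simp only [avg, ← mul_sum]
  ring

theorem mean_const (a : ℂ) : mean (fun _ => a) = a := by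
  apply mean_eq
  refine tendsto_const_nhds.congr fun N => ?_
  simp only [avg, sum_const, card_range, nsmul_eq_mul]
  have : ((N : ℂ) + 1) ≠ 0 := Nat.cast_add_one_ne_zero N
  push_cast
  field_simp

theorem mean_conj (c : ℕ → ℂ) (C : ℝ) (hc : ∀ n, ‖c n‖ ≤ C) :
    mean (fun n => conj (c n)) = conj (mean c) := by
  apply mean_eq
  have h := (Complex.continuous_conj.tendsto _).comp (tendsto_mean c C hc)
  refine h.congr fun N => ?_
  simp only [avg, Function.comp, map_mul, map_inv₀, map_add, map_natCast, map_one, map_sum]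

theorem mean_norm_le (c : ℕ → ℂ) (C : ℝ) (hc : ∀ n, ‖c n‖ ≤ C) : ‖mean c‖ ≤ C :=
  le_of_tendsto (tendsto_mean c C hc).norm (Eventually.of_forall fun N => avg_norm_le c C hc N)

/-- The averages of a sequence with real parts at least `a` have real part at least `a`. -/
theorem avg_re_ge (c : ℕ → ℂ) (a : ℝ) (ha : ∀ n, a ≤ (c n).re) (N : ℕ) : a ≤ (avg c N).re := by
  unfold avg
  have h0 : ((N : ℂ) + 1)⁻¹ = (((N : ℝ) + 1)⁻¹ : ℝ) := by push_cast; ring
  rw [h0, Complex.re_ofReal_mul, Complex.re_sum]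
  have h2 : ((N : ℝ) + 1) * a ≤ ∑ n ∈ range (N + 1), (c n).re := by
    refine le_trans ?_ (sum_le_sum fun n _ => ha n)
    simp
  calc a = ((N : ℝ) + 1)⁻¹ * (((N : ℝ) + 1) * a) := by field_simp
    _ ≤ _ := by gcongr

theorem mean_re_ge (c : ℕ → ℂ) (C : ℝ) (hc : ∀ n, ‖c n‖ ≤ C) (a : ℝ) (ha : ∀ n, a ≤ (c n).re) :
    a ≤ (mean c).re :=
  ge_of_tendsto ((Complex.continuous_re.tendsto _).comp (tendsto_mean c C hc))
    (Eventually.of_forall fun N => avg_re_ge c a ha N)

theorem mean_shift (c : ℕ → ℂ) (C : ℝ) (hc : ∀ n, ‖c n‖ ≤ C) :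
    mean (fun n => c (n + 1)) = mean c := by
  apply mean_eq
  have h := tendsto_mean c C hc
  have h1 : Tendsto (fun N : ℕ => avg (fun n => c (n + 1)) N - avg c N) atTop (𝓝 0) := by
    have h2 : ∀ N : ℕ, avg (fun n => c (n + 1)) N - avg c N =
        ((N : ℂ) + 1)⁻¹ * (c (N + 1) - c 0) := by
      intro N
      simp only [avg]
      rw [← mul_sub]
      congr 1
      have h3 := sum_range_succ' c (N + 1)
      have h4 := sum_range_succ c (N + 1)
      have h5 : ∑ n ∈ range (N + 1), c (n + 1) = ∑ n ∈ range (N + 1), c n + c (N + 1) - c 0 := by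
        rw [← h4, h3]; ring
      rw [h5]; ring
    have h6 : Tendsto (fun N : ℕ => ((N : ℝ) + 1)⁻¹ * (C + C)) atTop (𝓝 0) := by
      have := (tendsto_one_div_add_atTop_nhds_zero_nat (𝕜 := ℝ)).mul_const (C + C)
      simpa using this
    refine squeeze_zero_norm (fun N => ?_) h6
    rw [h2, norm_mul, norm_inv]
    have h7 : ‖(N : ℂ) + 1‖ = (N : ℝ) + 1 := by
      have : (N : ℂ) + 1 = ((N + 1 : ℝ) : ℂ) := by push_cast; ring
      rw [this, Complex.norm_real, Real.norm_of_nonneg (by positivity)]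
    rw [h7]
    gcongr
    exact (norm_sub_le _ _).trans (add_le_add (hc _) (hc _))
  have h8 : (hyperfilter ℕ : Filter ℕ) ≤ atTop := by
    rw [← Nat.cofinite_eq_atTop]; exact hyperfilter_le_cofinite
  have h9 := (h1.mono_left h8).add h
  rw [zero_add] at h9
  exact h9.congr fun N => by ring

/-- Weak limits along ultrafilters in reflexive spaces. -/
theorem exists_wlim {Y : Type*} [NormedAddCommGroup Y] [NormedSpace ℂ Y]
    (hr : Function.Surjective (NormedSpace.inclusionInDoubleDual ℂ Y))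
    {ι : Type*} (U : Ultrafilter ι) (y : ι → Y) (C : ℝ) (hy : ∀ i, ‖y i‖ ≤ C) :
    ∃ z : Y, ‖z‖ ≤ C ∧ ∀ g : StrongDual ℂ Y, Tendsto (fun i => g (y i)) U (𝓝 (g z)) := by
  have hb : ∀ g : StrongDual ℂ Y, ∀ i, ‖g (y i)‖ ≤ C * ‖g‖ := by
    intro g i
    refine (g.le_opNorm _).trans ?_
    rw [mul_comm]
    gcongr
    exact hy i
  have hC : 0 ≤ C := by
    obtain ⟨i, -⟩ := (U : Filter ι).nonempty_of_mem univ_mem
    exact (norm_nonneg _).trans (hy i)
  choose L hL using fun g : StrongDual ℂ Y => exists_ulim U (fun i => g (y i)) (C * ‖g‖) (hb g)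
  let Φ : StrongDual ℂ (StrongDual ℂ Y) := LinearMap.mkContinuous
    { toFun := L
      map_add' := fun g h => by
        refine tendsto_nhds_unique (hL (g + h)) ?_
        simpa using (hL g).add (hL h)
      map_smul' := fun a g => by
        refine tendsto_nhds_unique (hL (a • g)) ?_
        simpa using (hL g).const_mul a } C
    (fun g => by
      refine le_of_tendsto (hL g).norm (Eventually.of_forall fun i => hb g i))
  obtain ⟨z, hz⟩ := hr Φ
  have hz' : ∀ g : StrongDual ℂ Y, g z = L g := by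
    intro g
    have := congrArg (fun (Ψ : StrongDual ℂ (StrongDual ℂ Y)) => Ψ g) hz
    simpa [Φ] using this
  refine ⟨z, ?_, fun g => by rw [hz' g]; exact hL g⟩
  refine NormedSpace.norm_le_dual_bound ℂ z hC fun g => ?_
  rw [hz' g]
  exact le_of_tendsto (hL g).norm (Eventually.of_forall fun i => hb g i)

end Pool.Agent.R237.NH
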